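import Pool.Agent.CYG.D.Cov.Main

/-!
CYL, part D for every number `l` of paths: `l`-tuples of crossing paths of the plane modulo `i √3 L` and families of
disjoint crossing paths of the cylinder graph.
-/

namespace Pool.Agent.CYL.Plane

open Pool.Agent.Hhelper14.Honeycomb

/-- The `l`-tuples of crossing paths such that the translates of the paths by `i √3 c_1, ..., i √3 c_l` (the paths
which start at the vertices `i √3 c_1, ..., i √3 c_l` of the side `Re z = 0`) are pairwise disjoint on the cylinder. -/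
def Disj (L N : ℕ) {l : ℕ} (c : Fin l → ℤ) : Set (Fin l → List ℂ) :=
  {w | (∀ j, w j ∈ Cross L N) ∧ ∀ j k, j ≠ k → ∀ z ∈ w j, ∀ z' ∈ w k,
    ¬ Same L (z + c j * (Real.sqrt 3 * Complex.I)) (z' + c k * (Real.sqrt 3 * Complex.I))}

/-- The probability that `l` independent critical crossing paths, from the vertices `i √3 c_1, ..., i √3 c_l`, are
pairwise disjoint. -/
noncomputable def PD (L N : ℕ) {l : ℕ} (c : Fin l → ℤ) : ℝ :=
  (∑' w : Disj L N c, ∏ j, wt (w.1 j)) / (∑' w : Cross L N, wt w.1) ^ l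

end Pool.Agent.CYL.Plane

namespace Pool.Agent.CYL.DC

open Pool.Agent.Hhelper14.SAW Pool.Agent.Hhelper14.Honeycomb Pool.Agent.HHP Pool.Agent.QL Pool.Agent.CYL.Cov
open scoped ENNReal

variable {L N l : ℕ} {i : Fin L}

/-- The translation by `i √3 c`. -/
def sf (c : ℤ) (z : ℤ × ℤ) : ℤ × ℤ := z + (-c, 2 * c)

lemma hon_sf {c : ℤ} {z : ℤ × ℤ} (hz : hon z) : hon (sf c z) := by
  obtain ⟨x, y⟩ := z
  simp only [hon, sf, Prod.mk_add_mk] at hz ⊢
  omega

lemma emb_sf (c : ℤ) (z : ℤ × ℤ) : emb (sf c z) = emb z + c * (Real.sqrt 3 * Complex.I) := by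
  have h := emb_sub (sf c z) z
  have e : sf c z - z = (-c, 2 * c) := by simp [sf]
  rw [e, emb_period] at h
  rw [sub_eq_iff_eq_add.1 h]
  ring

lemma pf_sf (c : ℤ) (z : ℤ × ℤ) : pf N i (sf c z) = pf N (md i (-c)) z := by
  obtain ⟨x, y⟩ := z
  unfold pf pr
  have h : F0 (fl N (sf c (x, y))) = F0 (fl N (x, y)) := by
    simp only [sf, fl, F0, Prod.mk_add_mk, Prod.mk_sub_mk]
    ring
  have h1 : (fl N (sf c (x, y))).1 = (fl N (x, y)).1 + c := by
    simp only [sf, fl, Prod.mk_add_mk, Prod.mk_sub_mk]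
    ring
  rw [h, h1, md_md]
  congr 3
  ring

lemma same_sf {c c' : ℤ} {z z' : ℤ × ℤ} (hz : hon z) (hz' : hon z') (i : Fin L) :
    Plane.Same L (emb z + c * (Real.sqrt 3 * Complex.I)) (emb z' + c' * (Real.sqrt 3 * Complex.I)) ↔
      pf N (md i (-c)) z = pf N (md i (-c')) z' := by
  rw [← emb_sf, ← emb_sf, same_iff (N := N) (i := i) (hon_sf hz) (hon_sf hz'), pf_sf, pf_sf]

/-- Tuples of lists of integer points. -/
def IPT (N : ℕ) (c : Fin l → Fin L) : Set (Fin l → List (ℤ × ℤ)) :=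
  {R | (∀ j, R j ∈ IP N (c j)) ∧ ∀ j k, j ≠ k → ∀ z ∈ R j, ∀ z' ∈ R k, pf N (c j) z ≠ pf N (c k) z'}

/-- Tuples of disjoint crossing paths of the cylinder graph. -/
def CCT (N : ℕ) (c : Fin l → Fin L) : Set (Fin l → List (CV L)) :=
  {g | (∀ j, g j ∈ CC N (c j)) ∧ ∀ j k, j ≠ k → List.Disjoint (g j) (g k)}

lemma disj_iff (i : Fin L) {c : Fin l → ℤ} {R : Fin l → List (ℤ × ℤ)} (h : ∀ j, ∀ x ∈ R j, hon x) :
    (fun j => (R j).map emb) ∈ Plane.Disj L N c ↔ R ∈ IPT N fun j => md i (-c j) := by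
  unfold Plane.Disj IPT
  simp only [Set.mem_ofPred_eq]
  refine and_congr (forall_congr' fun j => emb_mem_iff (h j)) ?_
  constructor
  · intro h1 j k hjk z hz z' hz' he
    exact h1 j k hjk _ (List.mem_map_of_mem hz) _ (List.mem_map_of_mem hz')
      ((same_sf (h j z hz) (h k z' hz') i).2 he)
  · intro h1 j k hjk z hz z' hz' he
    obtain ⟨x, hx, rfl⟩ := List.mem_map.1 hz
    obtain ⟨x', hx', rfl⟩ := List.mem_map.1 hz'
    exact h1 j k hjk x hx x' hx' ((same_sf (h j x hx) (h k x' hx') i).1 he)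

lemma cct_iff {c : Fin l → Fin L} {R : Fin l → List (ℤ × ℤ)} (h : ∀ j, R j ∈ IP N (c j)) :
    (fun j => (R j).map (pf N (c j))) ∈ CCT N c ↔ R ∈ IPT N c := by
  unfold CCT IPT
  simp only [Set.mem_ofPred_eq]
  refine and_congr ⟨fun _ => h, fun _ j => pf_mem (h j)⟩ ?_
  constructor
  · intro h1 j k hjk z hz z' hz' he
    exact h1 j k hjk (List.mem_map_of_mem hz) (by rw [he]; exact List.mem_map_of_mem hz')
  · intro h1 j k hjk z hz hz'
    obtain ⟨x, hx, rfl⟩ := List.mem_map.1 hz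
    obtain ⟨x', hx', he⟩ := List.mem_map.1 hz'
    exact h1 j k hjk x hx x' hx' he.symm

/-- Tuples, plane. -/
noncomputable def eqvET (N : ℕ) (i : Fin L) (c : Fin l → ℤ) : IPT N (fun j => md i (-c j)) ≃ Plane.Disj L N c :=
  Equiv.ofBijective (fun R => ⟨fun j => (R.1 j).map emb,
      (disj_iff i fun j x hx => ((R.2.1 j).2.1 x hx).1).2 R.2⟩) <| by
    constructor
    · intro R R' h
      refine Subtype.ext (funext fun j => List.map_injective_iff.2 emb_inj ?_)
      exact congrFun (congrArg Subtype.val h) j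
    · rintro ⟨w, hw⟩
      choose R hR hR' using fun j => emb_surj (hw.1 j) (md i (-c j))
      have e : (fun j => (R j).map emb) = w := funext hR'
      refine ⟨⟨R, ?_⟩, Subtype.ext e⟩
      rw [← e] at hw
      exact (disj_iff i fun j x hx => ((hR j).2.1 x hx).1).1 hw

/-- Tuples, cylinder. -/
noncomputable def eqvPT (hL : 2 ≤ L) (N : ℕ) (c : Fin l → Fin L) : IPT N c ≃ CCT N c :=
  Equiv.ofBijective (fun R => ⟨fun j => (R.1 j).map (pf N (c j)), (cct_iff R.2.1).2 R.2⟩) <| by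
    constructor
    · intro R R' h
      exact Subtype.ext (funext fun j => pf_inj hL (R.2.1 j) (R'.2.1 j) (congrFun (congrArg Subtype.val h) j))
    · rintro ⟨w, hw⟩
      choose R hR hR' using fun j => pf_surj (hw.1 j)
      have e : (fun j => (R j).map (pf N (c j))) = w := funext hR'
      refine ⟨⟨R, ?_⟩, Subtype.ext e⟩
      rw [← e] at hw
      exact (cct_iff hR).1 hw

/-- The last vertices. -/
noncomputable def eqvST (N : ℕ) (c : Fin l → Fin L) :
    (Σ e : Fin l → Fin L, {g : Fin l → List (CV L) // Fam N c e g}) ≃ CCT N c :=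
  Equiv.ofBijective (fun x => ⟨x.2.1, fun j => ⟨x.1 j, x.2.2.1 j⟩, x.2.2.2⟩) <| by
    constructor
    · rintro ⟨e, g, hg⟩ ⟨e', g', hg'⟩ h
      have h1 : g = g' := congrArg Subtype.val h
      subst h1
      have h3 : e = e' := by
        funext j
        have h2 := (hg.1 j).2.2.2.2
        rw [(hg'.1 j).2.2.2.2, Option.some.injEq] at h2
        exact ut_inj h2.symm
      subst h3
      rfl
    · rintro ⟨g, hg, hd⟩
      have hg' := hg
      choose e he using hg'
      exact ⟨⟨e, g, he, hd⟩, rfl⟩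

lemma pos_wt (w : List ℂ) : 0 ≤ Plane.wt w := by
  unfold Plane.wt
  have : 0 ≤ Pool.Agent.Hhelper14.Honeycomb.muL := by
    unfold Pool.Agent.Hhelper14.Honeycomb.muL
    exact Real.iInf_nonneg fun n => by positivity
  positivity

theorem cover_tup (hL : 2 ≤ L) (N : ℕ) (i : Fin L) (c : Fin l → ℤ) :
    ∑' w : Plane.Disj L N c, ENNReal.ofReal (∏ j, Plane.wt (w.1 j)) =
      ∑ e, fm N (fun j => md i (-c j)) e := by
  have h1 : ∀ w : Fin l → List ℂ, ENNReal.ofReal (∏ j, Plane.wt (w j)) = xE ^ ∑ j, (w j).length := by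
    intro w
    rw [ENNReal.ofReal_prod_of_nonneg fun j _ => pos_wt (w j), ← Finset.prod_pow_eq_pow_sum]
    exact Finset.prod_congr rfl fun j _ => ofReal_wt _
  have h2 : ∑ e, fm N (fun j => md i (-c j)) e =
      ∑' g : CCT N (fun j => md i (-c j)), xE ^ ∑ j, (g.1 j).length := by
    rw [← (eqvST N _).tsum_eq, ENNReal.tsum_sigma', tsum_fintype]
    rfl
  rw [h2, ← (eqvET N i c).tsum_eq, ← (eqvPT hL N _).tsum_eq]
  apply tsum_congr
  intro R
  rw [h1]
  show xE ^ (∑ j, ((R.1 j).map emb).length) = xE ^ (∑ j, ((R.1 j).map (pf N (md i (-c j)))).length)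
  simp only [List.length_map]

end Pool.Agent.CYL.DC
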